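import Pool.Agent.helper65.GF.SpecG

/-!
# Row `bz:YF1` (MP_ea335c_an)
-/

set_option autoImplicit false

namespace Pool.Agent.GD

open Finset Metric Filter Topology

/-- The first part of the sum. -/
theorem YF1_low (p n j : ℕ) (v e h : ℕ → ℂ) (hjp : j ≤ p) (hn : p < n)
    (hh : ∀ k, k ≤ p → h k = if k < j then 0 else (2 * (j : ℂ) + 1) * e (k - j)) :
    ∑ k ∈ range (p + 1), v (n - k) * h k =
      (2 * (j : ℂ) + 1) * ∑ i ∈ range (p - j + 1), v ((n - p) + (p - j) - i) * e i := by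
  have h1 : ∑ k ∈ range (p + 1), v (n - k) * h k =
      ∑ k ∈ Ico j (p + 1), v (n - k) * ((2 * (j : ℂ) + 1) * e (k - j)) := by
    rw [Finset.range_eq_Ico, ← Finset.sum_Ico_consecutive _ (Nat.zero_le j) (by omega : j ≤ p + 1)]
    have h2 : ∑ k ∈ Ico 0 j, v (n - k) * h k = 0 := by
      refine Finset.sum_eq_zero fun k hk => ?_
      have := (mem_Ico.1 hk).2
      rw [hh k (by omega), if_pos (by omega), mul_zero]
    rw [h2, zero_add]
    refine Finset.sum_congr rfl fun k hk => ?_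
    have := mem_Ico.1 hk
    rw [hh k (by omega), if_neg (by omega)]
  rw [h1, Finset.sum_Ico_eq_sum_range, Finset.mul_sum, show p + 1 - j = p - j + 1 by omega]
  refine Finset.sum_congr rfl fun i hi => ?_
  have := mem_range.1 hi
  rw [show n - (j + i) = (n - p) + (p - j) - i by omega,
    show j + i - j = i by omega]
  ring

theorem YF1_E (v e : ℕ → ℂ) (D : ℝ) (hd : DatH v e D) (i : ℕ) :
    ‖e i‖ ≤ EH i - (if i = 1 then D / 2 else 0) := by
  unfold EH
  rcases Nat.eq_zero_or_pos i with h0 | h0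
  · subst h0
    simp [hd.e0]
  · rcases Nat.lt_or_ge 1 i with h1 | h1
    · rw [if_neg (by omega), if_neg (by omega), if_neg (by omega), sub_zero]
      exact hd.e2 i
    · have : i = 1 := by omega
      subst this
      rw [if_neg (by omega), if_pos rfl, if_pos rfl]
      exact hd.e1

theorem YF1_norm (j : ℕ) (z : ℂ) : ‖(2 * (j : ℂ) + 1) * z‖ = (2 * (j : ℝ) + 1) * ‖z‖ := by
  have h1 : (2 * (j : ℂ) + 1) = ((2 * j + 1 : ℕ) : ℂ) := by push_cast; ring
  rw [norm_mul, h1, Complex.norm_natCast]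
  push_cast
  ring

/-- The bound for `h m`. -/
theorem YF1_high (p j : ℕ) (v e h : ℕ → ℂ) (D : ℝ) (hd : DatH v e D)
    (hh : ∀ k, k ≤ p → h k = if k < j then 0 else (2 * (j : ℂ) + 1) * e (k - j))
    (hm : ∀ m, p < m → ‖h m‖ ≤ ∑ k ∈ Icc 1 p, AA p m k * ‖h k‖) (m : ℕ) (hpm : p < m) :
    ‖h m‖ ≤ (2 * (j : ℝ) + 1) * (∑ k ∈ Icc 1 p, AA p m k * (if k < j then 0 else EH (k - j)) -
      (if j < p then AA p m (j + 1) * (D / 2) else 0)) := by
  have hA : ∀ k ∈ Icc 1 p, 0 ≤ AA p m k := fun k hk =>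
    (nue_holds p m k (mem_Icc.1 hk).1 (mem_Icc.1 hk).2 hpm).2.1
  have hj0 : (0 : ℝ) ≤ 2 * (j : ℝ) + 1 := by positivity
  have h1 : ∀ k ∈ Icc 1 p, AA p m k * ‖h k‖ ≤
      (2 * (j : ℝ) + 1) * (AA p m k * (if k < j then 0 else EH (k - j)) -
      (if k = j + 1 then AA p m k * (D / 2) else 0)) := by
    intro k hk
    have hk' := mem_Icc.1 hk
    rw [hh k hk'.2]
    by_cases hc : k < j
    · rw [if_pos hc, if_pos hc, if_neg (by omega)]
      simp
    · rw [if_neg hc, if_neg hc]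
      have hE := YF1_E v e D hd (k - j)
      rw [YF1_norm]
      by_cases hkj : k = j + 1
      · rw [if_pos hkj]
        rw [if_pos (by omega)] at hE
        have h2 : AA p m k * ((2 * (j : ℝ) + 1) * ‖e (k - j)‖) ≤
            AA p m k * ((2 * (j : ℝ) + 1) * (EH (k - j) - D / 2)) :=
          mul_le_mul_of_nonneg_left (mul_le_mul_of_nonneg_left hE hj0) (hA k hk)
        linarith
      · rw [if_neg hkj]
        have hE2 : ‖e (k - j)‖ ≤ EH (k - j) := by
          by_cases h3 : k - j = 1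
          · exfalso
            omega
          · rw [if_neg h3] at hE
            linarith
        have h2 : AA p m k * ((2 * (j : ℝ) + 1) * ‖e (k - j)‖) ≤
            AA p m k * ((2 * (j : ℝ) + 1) * EH (k - j)) :=
          mul_le_mul_of_nonneg_left (mul_le_mul_of_nonneg_left hE2 hj0) (hA k hk)
        linarith
  refine (hm m hpm).trans ((Finset.sum_le_sum h1).trans (le_of_eq ?_))
  rw [← Finset.mul_sum, Finset.sum_sub_distrib]
  have h4 : ∑ k ∈ Icc 1 p, (if k = j + 1 then AA p m k * (D / 2) else 0) =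
      (if j < p then AA p m (j + 1) * (D / 2) else 0) := by
    rw [Finset.sum_ite_eq' (Icc 1 p) (j + 1) (fun k => AA p m k * (D / 2))]
    by_cases hjp : j < p
    · rw [if_pos (mem_Icc.2 ⟨by omega, by omega⟩), if_pos hjp]
    · rw [if_neg (fun h => hjp (by have := (mem_Icc.1 h).2; omega)), if_neg hjp]
  rw [h4]

theorem YF1 (h1 : YNC_stmt) (h2 : YNE_stmt) : YF1_stmt := by
  intro p n j v e h D hd hjp hn hh hm
  obtain ⟨A, hA⟩ : ∃ A, A = n - p := ⟨_, rfl⟩
  obtain ⟨r, hr⟩ : ∃ r, r = p - j := ⟨_, rfl⟩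
  have hA1 : 1 ≤ A := by omega
  have hj0 : (0 : ℝ) ≤ 2 * (j : ℝ) + 1 := by positivity
  -- splitting
  have hsplit : cv v h n = ∑ k ∈ range (p + 1), v (n - k) * h k + ∑ k ∈ Ioc p n, v (n - k) * h k := by
    unfold cv
    have e1 : range (n + 1) = Ico 0 (n + 1) := Finset.range_eq_Ico (n + 1)
    have e2 : range (p + 1) = Ico 0 (p + 1) := Finset.range_eq_Ico (p + 1)
    have e3 : Ioc p n = Ico (p + 1) (n + 1) := by
      ext k
      rw [mem_Ioc, mem_Ico]
      omega
    rw [e1, e2, e3]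
    exact (Finset.sum_Ico_consecutive _ (Nat.zero_le (p + 1)) (by omega : p + 1 ≤ n + 1)).symm
  -- the nonnegative saving
  have hAA : ∀ m ∈ Ioc p n, j < p → 0 ≤ AA p m (j + 1) := fun m hm' hjp' =>
    (nue_holds p m (j + 1) (by omega) (by omega) (mem_Ioc.1 hm').1).2.1
  obtain ⟨T, hT⟩ : ∃ T : ℝ, T = ∑ m ∈ Ioc p n, (if j < p then AA p m (j + 1) * (D / 2) else 0) := ⟨_, rfl⟩
  have hD2 : 0 ≤ D / 2 := by have := hd.D0; linarith
  have hT0 : 0 ≤ T := by
    rw [hT]
    refine Finset.sum_nonneg fun m hm' => ?_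
    by_cases hc : j < p
    · rw [if_pos hc]
      exact mul_nonneg (hAA m hm' hc) hD2
    · rw [if_neg hc]
  -- first part
  have hP : ‖∑ i ∈ range (r + 1), v (A + r - i) * e i‖ ≤ TH r + T := by
    unfold TH
    rcases Nat.eq_zero_or_pos r with h0 | h0
    · rw [if_pos h0, h0]
      simp only [zero_add, Finset.sum_range_one, Nat.sub_zero, add_zero, hd.e0, mul_one]
      have := hd.vb A
      linarith
    · rw [if_neg (by omega)]
      refine (hd.p1 A r hA1 h0).trans ?_
      have hjp' : j < p := by omega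
      have h4 : T = D / 2 * ∑ m ∈ Ioc p n, AA p m (j + 1) := by
        rw [hT, Finset.mul_sum]
        refine Finset.sum_congr rfl fun m _ => ?_
        rw [if_pos hjp']
        ring
      have h3 : (A : ℝ) * (2 * (r : ℝ) - 1) ≤ ∑ m ∈ Ioc p n, AA p m (j + 1) := by
        have h5 : ∑ _m ∈ Ioc p n, (2 * (r : ℝ) - 1) ≤ ∑ m ∈ Ioc p n, AA p m (j + 1) := by
          refine Finset.sum_le_sum fun m hm' => ?_
          have h6 := h2 p m j hjp' (mem_Ioc.1 hm').1
          have h7 : (r : ℝ) = (p : ℝ) - j := by rw [hr, Nat.cast_sub hjp]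
          rw [h7]
          exact h6
        rw [Finset.sum_const, Nat.card_Ioc, nsmul_eq_mul, ← hA] at h5
        exact h5
      have h5 := mul_le_mul_of_nonneg_left h3 hD2
      rw [← h4] at h5
      have h6 : (2 * (r : ℝ) - 1) * ((A : ℝ) * D / 2) = D / 2 * ((A : ℝ) * (2 * (r : ℝ) - 1)) := by ring
      rw [h6]
      linarith
  have hlow : ‖∑ k ∈ range (p + 1), v (n - k) * h k‖ ≤ (2 * (j : ℝ) + 1) * (TH r + T) := by
    rw [YF1_low p n j v e h hjp hn hh, ← hA, ← hr, YF1_norm]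
    exact mul_le_mul_of_nonneg_left hP hj0
  -- second part
  have hhigh : ‖∑ k ∈ Ioc p n, v (n - k) * h k‖ ≤
      (2 * (j : ℝ) + 1) * (∑ m ∈ Ioc p n,
        ∑ k ∈ Icc 1 p, AA p m k * (if k < j then 0 else EH (k - j)) - T) := by
    refine (norm_sum_le _ _).trans ?_
    have h3 : ∀ m ∈ Ioc p n, ‖v (n - m) * h m‖ ≤
        (2 * (j : ℝ) + 1) * (∑ k ∈ Icc 1 p, AA p m k * (if k < j then 0 else EH (k - j)) -
          (if j < p then AA p m (j + 1) * (D / 2) else 0)) := by
      intro m hm'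
      have hm2 := mem_Ioc.1 hm'
      rw [norm_mul]
      have h5 := YF1_high p j v e h D hd hh hm m hm2.1
      calc ‖v (n - m)‖ * ‖h m‖ ≤ 1 * ‖h m‖ := mul_le_mul_of_nonneg_right (hd.vb (n - m)) (norm_nonneg _)
        _ = ‖h m‖ := one_mul _
        _ ≤ _ := h5
    refine (Finset.sum_le_sum h3).trans (le_of_eq ?_)
    rw [hT, ← Finset.sum_sub_distrib, Finset.mul_sum]
  have hI := h1 p n j hjp hn
  rw [← hr] at hI
  rw [hsplit]
  refine (norm_add_le _ _).trans ((add_le_add hlow hhigh).trans (le_of_eq ?_))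
  rw [← hI]
  ring

end Pool.Agent.GD
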